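import Pool.Agent.TH175.CC.BG3

/-!
# Groups with bounded generation have a linear coset covering function

Let `G` be a group with a finite generating set `S` and suppose that `G` is boundedly generated:
there are `a 0, …, a (k-1)` such that every element of `G` is a product
`a 0 ^ e 0 * ⋯ * a (k-1) ^ e (k-1)` with integers `e j`.  Then there is `c > 0` such that for all
`r` every cover of the ball of radius `r` by cosets of (possibly different) subgroups of infinite
index has at least `c r` members.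
-/

set_option autoImplicit false

namespace Pool.Agent.Results.MP_fd7e30_al.BoundedGenerationLinear

open Pool.Agent.TH175.CC Pool.Agent.TH175.CC.BG

/-- **Boundedly generated groups satisfy the negated form of Q1.** -/
theorem result (G : Type) [Group G] (S : Finset G) (hS : Subgroup.closure (S : Set G) = ⊤)
    (k : ℕ) (a : Fin k → G)
    (hBG : ∀ g : G, ∃ e : Fin k → ℤ, g = (List.ofFn fun j => a j ^ e j).prod) :
    ∃ c : ℝ, 0 < c ∧ ∀ (r n : ℕ) (g : Fin n → G) (H : Fin n → Subgroup G),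
      (∀ i, (H i).index = 0) →
      (∀ l : List G, l.length ≤ r → (∀ x ∈ l, x ∈ S ∨ x⁻¹ ∈ S) →
        ∃ i, (g i)⁻¹ * l.prod ∈ H i) →
      c * r ≤ n := by
  rcases Nat.eq_zero_or_pos k with hk | hk
  · subst hk
    refine ⟨1, one_pos, fun r n g H hH hcov => ?_⟩
    obtain ⟨i, _⟩ := hcov [] (by simp) (by simp)
    exfalso
    haveI : Subsingleton G := ⟨fun x y => by
      obtain ⟨e, he⟩ := hBG x
      obtain ⟨e', he'⟩ := hBG y
      rw [he, he']; simp⟩
    haveI : Finite G := Finite.of_subsingleton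
    exact Subgroup.index_ne_zero_of_finite (hH i)
  have hT := T_pos hk
  obtain ⟨K, hK⟩ : ∃ K : ℕ, (1 - 1 / (16 * T k)) ^ K < 1 / 2 :=
    exists_pow_lt_of_lt_one (by norm_num) (by
      have : 0 < 1 / (16 * T k) := by positivity
      linarith)
  choose L hL using fun j => exists_len hS (a j)
  obtain ⟨M, hMd⟩ : ∃ M, M = ∑ j, L j := ⟨_, rfl⟩
  have hM : ∀ j, Len S M (a j) := fun j => (hL j).mono (by
    rw [hMd]
    exact Finset.single_le_sum (f := L) (fun _ _ => Nat.zero_le _) (Finset.mem_univ j))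
  obtain ⟨Z, hZ⟩ : ∃ Z, Z = 4 * M * K + 1 := ⟨_, rfl⟩
  have hZ1 : 0 < Z := by omega
  have hZ' : (0 : ℝ) < Z := by exact_mod_cast hZ1
  have hT0 : 0 < T k := by linarith
  refine ⟨1 / (2 * Z * T k), by positivity, fun r n g H hH hcov => ?_⟩
  have hn : (1 : ℝ) ≤ n := by
    obtain ⟨i, _⟩ := hcov [] (by simp) (by simp)
    have : 0 < n := i.pos
    exact_mod_cast this
  rcases lt_or_ge r Z with hr | hr
  · have h1 : (r : ℝ) ≤ Z := by exact_mod_cast hr.le
    calc 1 / (2 * Z * T k) * r ≤ 1 / (2 * Z * T k) * Z := mul_le_mul_of_nonneg_left h1 (by positivity)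
      _ = 1 / (2 * T k) := by field_simp
      _ ≤ 1 := by rw [div_le_one (by positivity)]; linarith
      _ ≤ n := hn
  obtain ⟨s, hs⟩ : ∃ s, s = Nat.log 2 (r / Z) := ⟨_, rfl⟩
  have hrZ : r / Z ≠ 0 := (Nat.div_pos hr hZ1).ne'
  have h1 : 2 ^ s ≤ r / Z := by rw [hs]; exact Nat.pow_log_le_self 2 hrZ
  have h2 : r / Z < 2 ^ (s + 1) := by rw [hs]; exact Nat.lt_pow_succ_log_self (by norm_num) _
  have h3 : Z * 2 ^ s ≤ r := by
    calc Z * 2 ^ s ≤ Z * (r / Z) := Nat.mul_le_mul_left Z h1
      _ ≤ r := Nat.mul_div_le r Z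
  have h4 : r < Z * 2 ^ (s + 1) := by
    rw [mul_comm]
    exact (Nat.div_lt_iff_lt_mul hZ1).1 h2
  -- the lower bound for the sum
  haveI : ∀ i, Infinite (G ⧸ H i) := fun i => Subgroup.index_eq_zero_iff_infinite.1 (hH i)
  have hlow := cover2 hk hM (Y := fun i => G ⧸ H i) (fun i => ((1 : G) : G ⧸ H i))
    (fun i => ((g i : G) : G ⧸ H i)) ((scl K s).reverse ++ scl K s) 1 (by
      rintro w ⟨l, k1, k2, k3⟩
      have hlen : M * (((scl K s).reverse ++ scl K s).map fun e => 2 ^ e).sum ≤ r := by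
        rw [List.map_append, List.sum_append, List.map_reverse, List.sum_reverse]
        have q1 := scl_sum K s
        have q2 : ((scl K s).map fun e => 2 ^ e).sum + ((scl K s).map fun e => 2 ^ e).sum ≤
            4 * K * 2 ^ s := by
          have : K * 2 ^ (s + 1) = 2 * K * 2 ^ s := by rw [pow_succ]; ring
          have e4 : 4 * K * 2 ^ s = 2 * K * 2 ^ s + 2 * K * 2 ^ s := by ring
          omega
        calc M * _ ≤ M * (4 * K * 2 ^ s) := Nat.mul_le_mul_left M q2
          _ = (4 * M * K) * 2 ^ s := by ring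
          _ ≤ Z * 2 ^ s := Nat.mul_le_mul_right _ (by omega)
          _ ≤ r := h3
      obtain ⟨i, hi⟩ := hcov l (k1.trans hlen) k2
      refine ⟨i, ?_⟩
      rw [mul_one, ← k3]
      show ((l.prod * 1 : G) : G ⧸ H i) = ((g i : G) : G ⧸ H i)
      rw [mul_one]
      exact (QuotientGroup.eq.2 hi).symm)
  simp only [one_smul] at hlow
  have hup : ∀ i ∈ (Finset.univ : Finset (Fin n)),
      V a ((scl K s).reverse ++ scl K s) (dl ((g i : G) : G ⧸ H i)) ((1 : G) : G ⧸ H i) ≤
      T k / 2 ^ s := fun i _ => kernel hk a hBG hK.le s _ _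
  have h5 : (1 : ℝ) ≤ n * (T k / 2 ^ s) := by
    refine (hlow.trans (Finset.sum_le_sum hup)).trans (le_of_eq ?_)
    simp
  have h6 : (2 : ℝ) ^ s ≤ n * T k := by
    rw [← mul_div_assoc, one_le_div (by positivity)] at h5
    exact h5
  have h7 : (r : ℝ) ≤ Z * 2 ^ (s + 1) := by exact_mod_cast h4.le
  calc 1 / (2 * Z * T k) * r ≤ 1 / (2 * Z * T k) * (Z * 2 ^ (s + 1)) :=
        mul_le_mul_of_nonneg_left h7 (by positivity)
    _ = 2 ^ s / T k := by rw [pow_succ]; field_simp
    _ ≤ n := by rw [div_le_iff₀ hT0]; exact h6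

end Pool.Agent.Results.MP_fd7e30_al.BoundedGenerationLinear
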