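import Mathlib

/-!
# Coset covers of balls and Følner sets

If the ball `B_r` of a group is covered by `N` cosets of subgroups of infinite index and `F` is a
nonempty finite subset of `B_r`, then `(s + 1) |F| ≤ N |F B_s|` for every `s`.  Hence the coset covering
function is at least linear for groups with controlled Følner pairs, in particular for groups with
doubling balls.
-/

set_option autoImplicit false

open scoped Pointwise

namespace Pool.Agent.Results.MP_fd7e30_al.FolnerLowerBound

/-- The ball of radius `r` about `1` in the word metric of `S ∪ S⁻¹`. -/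
def Ball {G : Type} [Group G] (S : Finset G) (r : ℕ) : Set G :=
  {g | ∃ l : List G, l.length ≤ r ∧ (∀ x ∈ l, x ∈ S ∨ x⁻¹ ∈ S) ∧ l.prod = g}

/-- `B_r(G, S)` is covered by `N` left cosets `g_i H_i` of subgroups of infinite index. -/
def Covered {G : Type} [Group G] (S : Finset G) (r N : ℕ) : Prop :=
  ∃ (g : Fin N → G) (H : Fin N → Subgroup G), (∀ i, (H i).index = 0) ∧
    ∀ x ∈ Ball S r, ∃ i, (g i)⁻¹ * x ∈ H i

/-- The coset covering function: the least `N` such that `B_r(G, S)` is covered by `N` cosets of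
subgroups of infinite index. -/
noncomputable def cosetCover {G : Type} [Group G] (S : Finset G) (r : ℕ) : ℕ :=
  sInf {N | Covered S r N}

lemma ball_succ {G : Type} [Group G] {S : Finset G} {r : ℕ} {x y : G} (hx : x ∈ S ∨ x⁻¹ ∈ S)
    (hy : y ∈ Ball S r) : x * y ∈ Ball S (r + 1) := by
  obtain ⟨l, h1, h2, h3⟩ := hy
  refine ⟨x :: l, by simp; omega, ?_, by simp [h3]⟩
  intro z hz
  rcases List.mem_cons.1 hz with rfl | hz
  · exact hx
  · exact h2 z hz

lemma one_mem_ball {G : Type} [Group G] (S : Finset G) (r : ℕ) : (1 : G) ∈ Ball S r :=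
  ⟨[], by simp, by simp, by simp⟩

lemma ball_mono {G : Type} [Group G] (S : Finset G) {r r' : ℕ} (h : r ≤ r') :
    Ball S r ⊆ Ball S r' := by
  rintro g ⟨l, h1, h2, h3⟩
  exact ⟨l, h1.trans h, h2, h3⟩

lemma inv_mem_ball {G : Type} [Group G] {S : Finset G} {r : ℕ} {y : G} (hy : y ∈ Ball S r) :
    y⁻¹ ∈ Ball S r := by
  obtain ⟨l, h1, h2, h3⟩ := hy
  refine ⟨(l.map (fun x => x⁻¹)).reverse, by simpa using h1, ?_, ?_⟩
  · intro x hx
    rw [List.mem_reverse] at hx
    obtain ⟨z, hz, rfl⟩ := List.mem_map.1 hx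
    rw [inv_inv]
    exact (h2 z hz).symm
  · rw [← List.prod_inv_reverse, h3]

lemma mul_mem_ball {G : Type} [Group G] {S : Finset G} {r s : ℕ} {x y : G} (hx : x ∈ Ball S r)
    (hy : y ∈ Ball S s) : x * y ∈ Ball S (r + s) := by
  obtain ⟨l, h1, h2, h3⟩ := hx
  obtain ⟨l', h1', h2', h3'⟩ := hy
  refine ⟨l ++ l', by simp; omega, ?_, by simp [h3, h3']⟩
  intro z hz
  rcases List.mem_append.1 hz with hz | hz
  · exact h2 z hz
  · exact h2' z hz

lemma ball_finite {G : Type} [Group G] (S : Finset G) (r : ℕ) : (Ball S r).Finite := by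
  classical
  induction r with
  | zero =>
    refine (Set.finite_singleton (1 : G)).subset ?_
    rintro g ⟨l, h1, _, h3⟩
    have : l = [] := List.length_eq_zero_iff.1 (by omega)
    rw [this] at h3
    simpa using h3.symm
  | succ r ih =>
    have hfin : ((S ∪ S.image (fun x => x⁻¹) : Finset G) : Set G).Finite := Finset.finite_toSet _
    refine (ih.union (hfin.mul ih)).subset ?_
    rintro g ⟨l, h1, h2, h3⟩
    rcases l with _ | ⟨x, l⟩
    · left
      exact ⟨[], by simp, by simp, h3⟩
    · right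
      refine ⟨x, ?_, l.prod, ⟨l, ?_, ?_, rfl⟩, ?_⟩
      · have := h2 x (by simp)
        rcases this with h | h
        · simp [h]
        · simp only [Finset.coe_union, Finset.coe_image, Set.mem_union, Finset.mem_coe,
            Set.mem_image]
          exact Or.inr ⟨x⁻¹, h, inv_inv x⟩
      · simp only [List.length_cons] at h1
        omega
      · intro y hy
        exact h2 y (List.mem_cons_of_mem _ hy)
      · simpa using h3

/-- For infinite `G` some `N` works, so the least one is attained. -/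
lemma covered_cosetCover {G : Type} [Group G] [Infinite G] (S : Finset G) (r : ℕ) :
    Covered S r (cosetCover S r) := by
  have hne : {N | Covered S r N}.Nonempty := by
    classical
    set B := (ball_finite S r).toFinset with hB
    refine ⟨B.card, fun i => (B.equivFin.symm i : G), fun _ => ⊥, ?_, ?_⟩
    · intro i
      rw [Subgroup.index_bot]
      exact Nat.card_eq_zero_of_infinite
    · intro x hx
      have hxB : x ∈ B := (ball_finite S r).mem_toFinset.2 hx
      refine ⟨B.equivFin ⟨x, hxB⟩, ?_⟩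
      simp
  exact Nat.sInf_mem hne

/-- The image of the ball in the coset space of an infinite index subgroup. -/
lemma coset_growth {G : Type} [Group G] (S : Finset G) (hS : Subgroup.closure (S : Set G) = ⊤)
    (H : Subgroup G) (hH : H.index = 0) (s : ℕ) :
    s + 1 ≤ ((fun y : G => (y : G ⧸ H)) '' Ball S s).ncard := by
  have hfin : ∀ s, ((fun y : G => (y : G ⧸ H)) '' Ball S s).Finite := fun s =>
    (ball_finite S s).image _
  induction s with
  | zero =>
    have : (((1 : G) : G ⧸ H)) ∈ (fun y : G => (y : G ⧸ H)) '' Ball S 0 :=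
      ⟨1, one_mem_ball S 0, rfl⟩
    have h1 : 0 < ((fun y : G => (y : G ⧸ H)) '' Ball S 0).ncard :=
      (Set.ncard_pos (hfin 0)).2 ⟨_, this⟩
    omega
  | succ s ih =>
    have hsub : (fun y : G => (y : G ⧸ H)) '' Ball S s ⊆
        (fun y : G => (y : G ⧸ H)) '' Ball S (s + 1) :=
      Set.image_mono (ball_mono S (by omega))
    have hne : ((fun y : G => (y : G ⧸ H)) '' Ball S s) ≠
        (fun y : G => (y : G ⧸ H)) '' Ball S (s + 1) := by
      intro heq
      -- closed under generators
      set Q := (fun y : G => (y : G ⧸ H)) '' Ball S s with hQ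
      have hstep : ∀ x : G, (x ∈ S ∨ x⁻¹ ∈ S) → ∀ q ∈ Q, x • q ∈ Q := by
        rintro x hx q ⟨y, hy, rfl⟩
        rw [heq]
        exact ⟨x * y, ball_succ hx hy, rfl⟩
      have hall : ∀ g : G, ∀ q ∈ Q, g • q ∈ Q := by
        intro g
        have hg : g ∈ Subgroup.closure (S : Set G) := by rw [hS]; trivial
        induction hg using Subgroup.closure_induction'' with
        | mem x hx => exact hstep x (Or.inl hx)
        | inv_mem x hx => exact hstep x⁻¹ (Or.inr (by rw [inv_inv]; exact hx))
        | one =>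
          intro q hq
          rwa [one_smul]
        | mul a b _ _ ha hb =>
          intro q hq
          rw [mul_smul]
          exact ha _ (hb q hq)
      have huniv : (Set.univ : Set (G ⧸ H)) ⊆ Q := by
        intro q _
        induction q using QuotientGroup.induction_on with
        | H g =>
          have h1 := hall g ((1 : G) : G ⧸ H) ⟨1, one_mem_ball S s, rfl⟩
          rwa [MulAction.Quotient.smul_coe, smul_eq_mul, mul_one] at h1
      have hf : Finite (G ⧸ H) := Set.finite_univ_iff.1 ((hfin s).subset huniv)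
      exact Subgroup.index_ne_zero_of_finite hH
    have := Set.ncard_lt_ncard (hsub.ssubset_of_ne hne) (hfin (s + 1))
    omega

/-- Main inequality for one coset. -/
lemma one_coset {G : Type} [Group G] (S : Finset G) (hS : Subgroup.closure (S : Set G) = ⊤)
    (H : Subgroup G) (hH : H.index = 0) (s : ℕ) (g : G) (F : Set G) (hF : F.Finite) :
    (s + 1) * ({x ∈ F | g⁻¹ * x ∈ H}).ncard ≤ (F * Ball S s).ncard := by
  classical
  set Q := (fun y : G => (y : G ⧸ H)) '' Ball S s with hQ
  have hQfin : Q.Finite := (ball_finite S s).image _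
  have hsec : ∀ q : G ⧸ H, ∃ y : G, q ∈ Q → y ∈ Ball S s ∧ (y : G ⧸ H) = q := by
    intro q
    by_cases hq : q ∈ Q
    · obtain ⟨y, hy, rfl⟩ := hq
      exact ⟨y, fun _ => ⟨hy, rfl⟩⟩
    · exact ⟨1, fun h => absurd h hq⟩
  choose y hy using hsec
  set A := {x ∈ F | g⁻¹ * x ∈ H} with hA
  have hAfin : A.Finite := hF.subset (Set.sep_subset _ _)
  have hinj : Set.InjOn (fun p : (G ⧸ H) × G => p.2 * (y p.1)⁻¹) (Q ×ˢ A) := by
    rintro ⟨q, a⟩ ⟨hq, ha⟩ ⟨q', a'⟩ ⟨hq', ha'⟩ heq
    simp only at heq hq hq' ha ha'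
    have h1 := (hy q hq).2
    have h2 := (hy q' hq').2
    have hqq : q = q' := by
      rw [← h1, ← h2, QuotientGroup.eq]
      have e : (y q)⁻¹ * y q' = (g⁻¹ * a)⁻¹ * (g⁻¹ * a') := by
        have : (y q)⁻¹ = a⁻¹ * (a' * (y q')⁻¹) := by
          rw [← heq]
          group
        rw [this]
        group
      rw [e]
      exact H.mul_mem (H.inv_mem ha.2) ha'.2
    subst hqq
    have haa : a = a' := mul_right_cancel heq
    rw [haa]
  have hmaps : (fun p : (G ⧸ H) × G => p.2 * (y p.1)⁻¹) '' (Q ×ˢ A) ⊆ F * Ball S s := by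
    rintro _ ⟨⟨q, a⟩, ⟨hq, ha⟩, rfl⟩
    exact Set.mul_mem_mul ha.1 (inv_mem_ball (hy q hq).1)
  have hfin2 : (F * Ball S s).Finite := hF.mul (ball_finite S s)
  calc (s + 1) * A.ncard ≤ Q.ncard * A.ncard := Nat.mul_le_mul_right _ (coset_growth S hS H hH s)
    _ = (Q ×ˢ A).ncard := (Set.ncard_prod).symm
    _ = ((fun p : (G ⧸ H) × G => p.2 * (y p.1)⁻¹) '' (Q ×ˢ A)).ncard :=
        hinj.ncard_image.symm
    _ ≤ (F * Ball S s).ncard := Set.ncard_le_ncard hmaps hfin2

lemma main {G : Type} [Group G] (S : Finset G) (hS : Subgroup.closure (S : Set G) = ⊤)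
    (r s N : ℕ) (hcov : Covered S r N) (F : Set G) (hF : F ⊆ Ball S r) :
    (s + 1) * F.ncard ≤ N * (F * Ball S s).ncard := by
  classical
  obtain ⟨g, H, hH, hcov⟩ := hcov
  have hFfin : F.Finite := (ball_finite S r).subset hF
  have h1 : F.ncard ≤ ∑ i : Fin N, ({x ∈ F | (g i)⁻¹ * x ∈ H i}).ncard := by
    have hU : F ⊆ ⋃ i : Fin N, {x ∈ F | (g i)⁻¹ * x ∈ H i} := by
      intro x hx
      obtain ⟨i, hi⟩ := hcov x (hF hx)
      exact Set.mem_iUnion.2 ⟨i, hx, hi⟩
    have hUfin : (⋃ i : Fin N, {x ∈ F | (g i)⁻¹ * x ∈ H i}).Finite :=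
      Set.finite_iUnion fun i => hFfin.subset (Set.sep_subset _ _)
    refine (Set.ncard_le_ncard hU hUfin).trans ?_
    exact Set.ncard_iUnion_le_of_fintype _
  calc (s + 1) * F.ncard ≤ (s + 1) * ∑ i : Fin N, ({x ∈ F | (g i)⁻¹ * x ∈ H i}).ncard :=
        Nat.mul_le_mul_left _ h1
    _ = ∑ i : Fin N, (s + 1) * ({x ∈ F | (g i)⁻¹ * x ∈ H i}).ncard := by rw [Finset.mul_sum]
    _ ≤ ∑ _i : Fin N, (F * Ball S s).ncard :=
        Finset.sum_le_sum fun i _ => one_coset S hS (H i) (hH i) s (g i) F hFfin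
    _ = N * (F * Ball S s).ncard := by
        rw [Finset.sum_const, Finset.card_univ, Fintype.card_fin, smul_eq_mul]

lemma cosetCover_mono {G : Type} [Group G] [Infinite G] (S : Finset G) {r r' : ℕ} (h : r ≤ r') :
    cosetCover S r ≤ cosetCover S r' := by
  obtain ⟨g, H, hH, hcov⟩ := covered_cosetCover S r'
  exact Nat.sInf_le ⟨g, H, hH, fun x hx => hcov x (ball_mono S h hx)⟩

/-- **Følner sets bound the coset covering function from below.** -/
theorem result (G : Type) [Group G] [Infinite G] (S : Finset G)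
    (hS : Subgroup.closure (S : Set G) = ⊤) :
    -- the coset covering function is attained
    (∀ r, Covered S r (cosetCover S r) ∧ ∀ N, Covered S r N → cosetCover S r ≤ N) ∧
    -- the general inequality
    (∀ (r s : ℕ) (F : Set G), F ⊆ Ball S r →
      (s + 1) * F.ncard ≤ cosetCover S r * (F * Ball S s).ncard) ∧
    -- in particular, for balls
    (∀ r s : ℕ, (s + 1) * (Ball S r).ncard ≤ cosetCover S r * (Ball S (r + s)).ncard) ∧
    -- a linear lower bound for groups with controlled Følner pairs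
    (∀ K m : ℕ, 0 < m → (∀ r, ∃ F : Set G, F ⊆ Ball S (m * r) ∧ F.Nonempty ∧
        (F * Ball S r).ncard ≤ K * F.ncard) → ∀ R, R ≤ m * K * cosetCover S R) ∧
    -- a linear lower bound for groups with doubling balls
    (∀ K : ℕ, (∀ r, (Ball S (2 * r)).ncard ≤ K * (Ball S r).ncard) →
      ∀ r, r + 1 ≤ K * cosetCover S r) := by
  have h2 : ∀ (r s : ℕ) (F : Set G), F ⊆ Ball S r →
      (s + 1) * F.ncard ≤ cosetCover S r * (F * Ball S s).ncard := fun r s F hF =>
    main S hS r s _ (covered_cosetCover S r) F hF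
  have h3 : ∀ r s : ℕ, (s + 1) * (Ball S r).ncard ≤
      cosetCover S r * (Ball S (r + s)).ncard := by
    intro r s
    refine (h2 r s (Ball S r) subset_rfl).trans (Nat.mul_le_mul_left _ ?_)
    apply Set.ncard_le_ncard _ (ball_finite S (r + s))
    rintro _ ⟨x, hx, y, hy, rfl⟩
    exact mul_mem_ball hx hy
  refine ⟨fun r => ⟨covered_cosetCover S r, fun N hN => Nat.sInf_le hN⟩, h2, h3, ?_, ?_⟩
  · intro K m hm hF R
    obtain ⟨F, hF1, hF2, hF3⟩ := hF (R / m)
    have hFfin : F.Finite := (ball_finite S _).subset hF1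
    have h4 := h2 (m * (R / m)) (R / m) F hF1
    have h5 : (R / m + 1) * F.ncard ≤ (K * cosetCover S (m * (R / m))) * F.ncard := by
      calc (R / m + 1) * F.ncard ≤ cosetCover S (m * (R / m)) * (F * Ball S (R / m)).ncard := h4
        _ ≤ cosetCover S (m * (R / m)) * (K * F.ncard) := Nat.mul_le_mul_left _ hF3
        _ = (K * cosetCover S (m * (R / m))) * F.ncard := by ring
    have h6 : R / m + 1 ≤ K * cosetCover S (m * (R / m)) :=
      Nat.le_of_mul_le_mul_right h5 ((Set.ncard_pos hFfin).2 hF2)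
    have h7 : cosetCover S (m * (R / m)) ≤ cosetCover S R :=
      cosetCover_mono S (Nat.mul_div_le R m)
    calc R ≤ m * (R / m + 1) := (Nat.lt_mul_div_succ R hm).le
      _ ≤ m * (K * cosetCover S R) :=
          Nat.mul_le_mul_left _ (h6.trans (Nat.mul_le_mul_left _ h7))
      _ = m * K * cosetCover S R := by ring
  intro K hK r
  have h4 := h3 r r
  rw [← two_mul] at h4
  have h5 : (r + 1) * (Ball S r).ncard ≤ (K * cosetCover S r) * (Ball S r).ncard := by
    calc (r + 1) * (Ball S r).ncard ≤ cosetCover S r * (Ball S (2 * r)).ncard := h4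
      _ ≤ cosetCover S r * (K * (Ball S r).ncard) := Nat.mul_le_mul_left _ (hK r)
      _ = (K * cosetCover S r) * (Ball S r).ncard := by ring
  exact Nat.le_of_mul_le_mul_right h5
    ((Set.ncard_pos (ball_finite S r)).2 ⟨1, one_mem_ball S r⟩)

end Pool.Agent.Results.MP_fd7e30_al.FolnerLowerBound
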