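import Mathlib
import Pool.Agent.TH96.CC.C

/-!
# A universal lower bound for coset covers of balls

If the ball of radius `r` of a group with finite generating set `S` is covered by `N` cosets of
subgroups of infinite index, then `r ≤ 32 |S| N ^ 2`.
-/

set_option autoImplicit false

namespace Pool.Agent.Results.MP_fd7e30_al.SquareRootLowerBound

open Pool.Agent.TH96

/-- The ball of radius `r` about `1` in the word metric of `S ∪ S⁻¹`. -/
def Ball {G : Type} [Group G] (S : Finset G) (r : ℕ) : Set G :=
  {g | ∃ l : List G, l.length ≤ r ∧ (∀ x ∈ l, x ∈ S ∨ x⁻¹ ∈ S) ∧ l.prod = g}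

/-- `B_r(G, S)` is covered by `N` left cosets `g_i H_i` of subgroups of infinite index. -/
def Covered {G : Type} [Group G] (S : Finset G) (r N : ℕ) : Prop :=
  ∃ (g : Fin N → G) (H : Fin N → Subgroup G), (∀ i, (H i).index = 0) ∧
    ∀ x ∈ Ball S r, ∃ i, (g i)⁻¹ * x ∈ H i

/-- The coset covering function: the least `N` such that `B_r(G, S)` is covered by `N` cosets of
subgroups of infinite index. -/
noncomputable def cosetCover {G : Type} [Group G] (S : Finset G) (r : ℕ) : ℕ :=
  sInf {N | Covered S r N}

lemma ball_finite {G : Type} [Group G] (S : Finset G) (r : ℕ) : (Ball S r).Finite := by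
  classical
  induction r with
  | zero =>
    refine (Set.finite_singleton (1 : G)).subset ?_
    rintro g ⟨l, h1, _, h3⟩
    have : l = [] := List.length_eq_zero_iff.1 (by omega)
    rw [this] at h3
    simpa using h3.symm
  | succ r ih =>
    have hfin : ((S ∪ S.image (fun x => x⁻¹) : Finset G) : Set G).Finite := Finset.finite_toSet _
    refine (ih.union (hfin.mul ih)).subset ?_
    rintro g ⟨l, h1, h2, h3⟩
    rcases l with _ | ⟨x, l⟩
    · left
      exact ⟨[], by simp, by simp, h3⟩
    · right
      refine ⟨x, ?_, l.prod, ⟨l, ?_, ?_, rfl⟩, ?_⟩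
      · have := h2 x (by simp)
        rcases this with h | h
        · simp [h]
        · simp only [Finset.coe_union, Finset.coe_image, Set.mem_union, Finset.mem_coe,
            Set.mem_image]
          exact Or.inr ⟨x⁻¹, h, inv_inv x⟩
      · simp only [List.length_cons] at h1
        omega
      · intro y hy
        exact h2 y (List.mem_cons_of_mem _ hy)
      · simpa using h3

/-- For infinite `G` some `N` works, so the least one is attained. -/
lemma covered_cosetCover {G : Type} [Group G] [Infinite G] (S : Finset G) (r : ℕ) :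
    Covered S r (cosetCover S r) := by
  have hne : {N | Covered S r N}.Nonempty := by
    classical
    set B := (ball_finite S r).toFinset with hB
    refine ⟨B.card, fun i => (B.equivFin.symm i : G), fun _ => ⊥, ?_, ?_⟩
    · intro i
      rw [Subgroup.index_bot]
      exact Nat.card_eq_zero_of_infinite
    · intro x hx
      have hxB : x ∈ B := (ball_finite S r).mem_toFinset.2 hx
      refine ⟨B.equivFin ⟨x, hxB⟩, ?_⟩
      simp
  exact Nat.sInf_mem hne

/-- A cover of the ball of radius `r` by `N` cosets forces `r ≤ 32 |S| N ^ 2`. -/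
lemma main {G : Type} [Group G] (S : Finset G) (hS : Subgroup.closure (S : Set G) = ⊤)
    (r N : ℕ) (h : Covered S r N) : (r : ℝ) ≤ 32 * S.card * (N : ℝ) ^ 2 := by
  classical
  obtain ⟨g, H, hH, hcov⟩ := h
  set k := S.card with hkdef
  set s : Fin k → G := fun i => (S.equivFin.symm i : G) with hs
  have hrange : Set.range s = (S : Set G) := by
    ext x
    constructor
    · rintro ⟨i, rfl⟩
      exact (S.equivFin.symm i).2
    · intro hx
      exact ⟨S.equivFin ⟨x, hx⟩, by simp [hs]⟩
  have hgen : Subgroup.closure (Set.range s) = ⊤ := by rw [hrange, hS]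
  -- the cover is not empty
  obtain ⟨i0, _⟩ := hcov 1 ⟨[], by simp, by simp, by simp⟩
  have hinf : ∀ i, Infinite (G ⧸ H i) := by
    intro i
    by_contra hcon
    rw [not_infinite_iff_finite] at hcon
    exact Subgroup.index_ne_zero_of_finite (hH i)
  have hk : 0 < k := by
    rcases Nat.eq_zero_or_pos k with h0 | h0
    · exfalso
      have h1 : S = ∅ := Finset.card_eq_zero.1 h0
      rw [h1, Finset.coe_empty, Subgroup.closure_empty] at hS
      have h2 : H i0 = ⊤ := by
        rw [eq_top_iff, ← hS]
        exact bot_le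
      have h3 := hH i0
      rw [h2, Subgroup.index_top] at h3
      omega
    · exact h0
  have hk1 : (1 : ℝ) ≤ k := by exact_mod_cast hk
  set n := r / 2 with hn
  have h2n : 2 * n ≤ r := by omega
  set B : ℝ := 1 / Real.sqrt (1 + n / (16 * k)) with hB
  have hpos : (0 : ℝ) < 1 + n / (16 * k) := by positivity
  -- every pair of walks collides in some coset space
  have hpair : ∀ a b : G, CC.InB s n a → CC.InB s n b →
      (1 : ℝ) ≤ ∑ i : Fin N, (if b • ((1 : G) : G ⧸ H i) = a • ((g i : G) : G ⧸ H i)
        then (1 : ℝ) else 0) := by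
    rintro a b ⟨la, ha1, ha2, ha3⟩ ⟨lb, hb1, hb2, hb3⟩
    have hmem : a⁻¹ * b ∈ Ball S r := by
      refine ⟨(la.map (fun x => x⁻¹)).reverse ++ lb, ?_, ?_, ?_⟩
      · simp only [List.length_append, List.length_reverse, List.length_map]
        omega
      · intro x hx
        rcases List.mem_append.1 hx with hx | hx
        · rw [List.mem_reverse] at hx
          obtain ⟨y, hy, rfl⟩ := List.mem_map.1 hx
          right
          rw [inv_inv]
          have := ha2 y hy
          rw [hrange] at this
          exact this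
        · left
          have := hb2 x hx
          rw [hrange] at this
          exact this
      · rw [List.prod_append, ← List.prod_inv_reverse, ha3, hb3]
    obtain ⟨i, hi⟩ := hcov _ hmem
    have hcol : b • ((1 : G) : G ⧸ H i) = a • ((g i : G) : G ⧸ H i) := by
      rw [MulAction.Quotient.smul_coe, MulAction.Quotient.smul_coe, smul_eq_mul, smul_eq_mul,
        mul_one, eq_comm, QuotientGroup.eq]
      have : (a * g i)⁻¹ * b = (g i)⁻¹ * (a⁻¹ * b) := by group
      rw [this]
      exact hi
    calc (1 : ℝ) = (if b • ((1 : G) : G ⧸ H i) = a • ((g i : G) : G ⧸ H i)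
          then (1 : ℝ) else 0) := by rw [if_pos hcol]
      _ ≤ _ := Finset.single_le_sum (f := fun i : Fin N =>
          (if b • ((1 : G) : G ⧸ H i) = a • ((g i : G) : G ⧸ H i) then (1 : ℝ) else 0))
          (fun j _ => by split_ifs <;> norm_num) (Finset.mem_univ i)
  have h1 : (1 : ℝ) ≤ ∑ i : Fin N, CC.Avg s n (fun a => CC.Avg s n (fun b =>
      if b • ((1 : G) : G ⧸ H i) = a • ((g i : G) : G ⧸ H i) then (1 : ℝ) else 0)) := by
    rw [← CC.Avg_sum]
    have e1 : ∀ a : G, CC.InB s n a → (1 : ℝ) ≤ ∑ i : Fin N, CC.Avg s n (fun b =>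
        if b • ((1 : G) : G ⧸ H i) = a • ((g i : G) : G ⧸ H i) then (1 : ℝ) else 0) := by
      intro a ha
      rw [← CC.Avg_sum]
      calc (1 : ℝ) = CC.Avg s n (fun _ => 1) := (CC.Avg_const hk n 1).symm
        _ ≤ _ := CC.Avg_mono n _ _ fun b hb => hpair a b ha hb
    calc (1 : ℝ) = CC.Avg s n (fun _ => 1) := (CC.Avg_const hk n 1).symm
      _ ≤ _ := CC.Avg_mono n _ _ e1
  have h2 : ∑ i : Fin N, CC.Avg s n (fun a => CC.Avg s n (fun b =>
      if b • ((1 : G) : G ⧸ H i) = a • ((g i : G) : G ⧸ H i) then (1 : ℝ) else 0)) ≤ N * B := by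
    have : ∑ i : Fin N, CC.Avg s n (fun a => CC.Avg s n (fun b =>
        if b • ((1 : G) : G ⧸ H i) = a • ((g i : G) : G ⧸ H i) then (1 : ℝ) else 0)) ≤
        ∑ _i : Fin N, B := by
      apply Finset.sum_le_sum
      intro i _
      have := hinf i
      have hc := CC.collision (X := G ⧸ H i) hk hgen ((1 : G) : G ⧸ H i) ((g i : G) : G ⧸ H i) n
      refine le_trans (le_of_eq ?_) hc
      congr!
    rwa [Finset.sum_const, Finset.card_univ, Fintype.card_fin, nsmul_eq_mul] at this
  have h3 : (1 : ℝ) ≤ N * B := h1.trans h2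
  have h4 : Real.sqrt (1 + n / (16 * k)) ≤ N := by
    rw [hB, mul_one_div, le_div_iff₀ (Real.sqrt_pos.2 hpos), one_mul] at h3
    exact h3
  have h5 : (1 : ℝ) + n / (16 * k) ≤ (N : ℝ) ^ 2 := by
    have := pow_le_pow_left₀ (Real.sqrt_nonneg _) h4 2
    rwa [Real.sq_sqrt hpos.le] at this
  have h6 : (r : ℝ) ≤ 2 * n + 1 := by
    have : r ≤ 2 * n + 1 := by omega
    exact_mod_cast this
  have h7 : (32 : ℝ) * k * (1 + n / (16 * k)) = 32 * k + 2 * n := by
    field_simp
    ring
  have h8 : (32 : ℝ) * k * (1 + n / (16 * k)) ≤ 32 * k * (N : ℝ) ^ 2 :=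
    mul_le_mul_of_nonneg_left h5 (by positivity)
  linarith

/-- **A universal lower bound for the coset covering function.** For every infinite group `G` with
finite generating set `S` and every `r`, every cover of `B_r(G, S)` by `N` cosets of subgroups of
infinite index has `N ≥ sqrt (r / (32 |S|))`. -/
theorem result (G : Type) [Group G] [Infinite G] (S : Finset G)
    (hS : Subgroup.closure (S : Set G) = ⊤) (r : ℕ) :
    Covered S r (cosetCover S r) ∧ (∀ N : ℕ, Covered S r N → cosetCover S r ≤ N) ∧
      Real.sqrt (r / (32 * S.card)) ≤ cosetCover S r := by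
  refine ⟨covered_cosetCover S r, fun N hN => Nat.sInf_le hN, ?_⟩
  have h := main S hS r _ (covered_cosetCover S r)
  rcases Nat.eq_zero_or_pos S.card with h0 | h0
  · rw [h0]
    simp
  · apply Real.sqrt_le_iff.2
    refine ⟨Nat.cast_nonneg _, ?_⟩
    have h1 : (0 : ℝ) < 32 * S.card := by
      have : (0 : ℝ) < S.card := by exact_mod_cast h0
      positivity
    rw [div_le_iff₀ h1]
    linarith

end Pool.Agent.Results.MP_fd7e30_al.SquareRootLowerBound
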